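import Pool.Agent.Helper56.QCl.Main

/-!
# Signless Laplacian spectral radius and counting cliques (MP_f3cc63_co, Q1)

For every fixed `k ≥ 3` there are `C` and `n₀` such that every graph `G` on `n ≥ n₀` vertices whose
signless Laplacian spectral radius satisfies `q(G) > (1 - 1/k) 2n` contains at least
`(n/k)^(k-1) - C n^(k-2)` copies of `K_{k+1}`.
-/

set_option autoImplicit false

namespace Pool.Agent.Results.MP_f3cc63_co.SignlessCliqueCount

open Finset BigOperators Classical

/-- The signless Laplacian matrix `Q(G) = D(G) + A(G)`: the diagonal matrix of the vertex degrees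
plus the adjacency matrix. -/
noncomputable def signlessLaplacian {n : ℕ} (G : SimpleGraph (Fin n)) :
    Matrix (Fin n) (Fin n) ℝ :=
  Matrix.diagonal (fun v => (G.degree v : ℝ)) + G.adjMatrix ℝ

/-- The signless Laplacian spectral radius `q(G)`: the largest eigenvalue of `Q(G)`, defined as the
supremum of the (finite) set of real eigenvalues of `Q(G)`. -/
noncomputable def q {n : ℕ} (G : SimpleGraph (Fin n)) : ℝ :=
  sSup {μ : ℝ | ∃ z : Fin n → ℝ, z ≠ 0 ∧ (signlessLaplacian G).mulVec z = μ • z}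

/-- The number of copies of `K_{r}` in `G`: the number of sets of `r` pairwise adjacent vertices. -/
noncomputable def cliqueCount {n : ℕ} (G : SimpleGraph (Fin n)) (r : ℕ) : ℕ :=
  {T : Finset (Fin n) | G.IsNClique r T}.ncard

open Pool.Agent.Helper56.QCl in
theorem quad {n : ℕ} (G : SimpleGraph (Fin n)) (z : Fin n → ℝ) :
    ∑ v, z v * (signlessLaplacian G).mulVec z v = qf G z := by
  have h1 : ∀ v, (signlessLaplacian G).mulVec z v = ∑ w, ad G v w * (z v + z w) := by
    intro v
    unfold signlessLaplacian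
    rw [Matrix.add_mulVec, Pi.add_apply, Matrix.mulVec_diagonal]
    have e1 : (G.degree v : ℝ) = ∑ w, ad G v w := by
      unfold ad
      rw [← G.card_neighborFinset_eq_degree, G.neighborFinset_eq_filter, Finset.card_filter]
      push_cast
      rfl
    have e2 : (G.adjMatrix ℝ).mulVec z v = ∑ w, ad G v w * z w := by
      rw [Matrix.mulVec_eq_sum, Finset.sum_apply]
      refine Finset.sum_congr rfl fun w _ => ?_
      rw [Pi.smul_apply, Matrix.transpose_apply, SimpleGraph.adjMatrix_apply]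
      unfold ad
      simp [mul_comm]
    rw [e1, e2, Finset.sum_mul, ← Finset.sum_add_distrib]
    refine Finset.sum_congr rfl fun w _ => ?_
    ring
  simp only [h1]
  have h2 : ∑ v, z v * ∑ w, ad G v w * (z v + z w) = ∑ v, ∑ w, ad G v w * (z v * (z v + z w)) := by
    refine Finset.sum_congr rfl fun v _ => ?_
    rw [Finset.mul_sum]
    refine Finset.sum_congr rfl fun w _ => ?_
    ring
  have h3 : ∑ v, ∑ w, ad G v w * (z v * (z v + z w)) = ∑ v, ∑ w, ad G v w * (z w * (z v + z w)) := by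
    rw [Finset.sum_comm]
    refine Finset.sum_congr rfl fun v _ => Finset.sum_congr rfl fun w _ => ?_
    rw [ad_comm]; ring
  have h4 : ∑ v, ∑ w, ad G v w * (z v * (z v + z w)) + ∑ v, ∑ w, ad G v w * (z w * (z v + z w))
      = ∑ v, ∑ w, ad G v w * (z v + z w)^2 := by
    rw [← Finset.sum_add_distrib]
    refine Finset.sum_congr rfl fun v _ => ?_
    rw [← Finset.sum_add_distrib]
    refine Finset.sum_congr rfl fun w _ => ?_
    ring
  unfold qf
  rw [h2]
  rw [← h3] at h4
  linarith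

open Pool.Agent.Helper56.QCl in
theorem count_eq {n : ℕ} (G : SimpleGraph (Fin n)) (r : ℕ) : cq G r = cliqueCount G r := by
  unfold cq cliqueCount
  rw [← Set.ncard_coe_finset]
  congr 1
  ext T
  simp

open Pool.Agent.Helper56.QCl in
/-- **Q1 of MP_f3cc63_co.** -/
theorem result : ∀ k : ℕ, 3 ≤ k → ∃ (C : ℝ) (n₀ : ℕ), ∀ n : ℕ, n₀ ≤ n →
    ∀ G : SimpleGraph (Fin n), q G > (1 - 1 / (k : ℝ)) * (2 * (n : ℝ)) →
      ((n : ℝ) / (k : ℝ)) ^ (k - 1) - C * (n : ℝ) ^ (k - 2) ≤ (cliqueCount G (k + 1) : ℝ) := by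
  intro k hk
  obtain ⟨n0, h0⟩ := main_count k hk
  refine ⟨4672 * (k:ℝ), ⌈n0⌉₊, ?_⟩
  intro n hn G hq
  have hk3 : (3:ℝ) ≤ k := by exact_mod_cast hk
  have hk1 : 1 / (k:ℝ) ≤ 1 / 3 := one_div_le_one_div_of_le (by norm_num) hk3
  have hnn : n0 ≤ (Fintype.card (Fin n) : ℝ) := by
    rw [Fintype.card_fin]
    exact (Nat.le_ceil n0).trans (by exact_mod_cast hn)
  have hne : {μ : ℝ | ∃ z : Fin n → ℝ, z ≠ 0 ∧ (signlessLaplacian G).mulVec z = μ • z}.Nonempty := by
    by_contra hcon
    rw [Set.not_nonempty_iff_eq_empty] at hcon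
    unfold q at hq
    rw [hcon, Real.sSup_empty] at hq
    have : 0 ≤ (1 - 1 / (k:ℝ)) * (2 * (n:ℝ)) := mul_nonneg (by linarith) (by positivity)
    linarith
  obtain ⟨μ, ⟨z, hz0, hz⟩, hμ⟩ := exists_lt_of_lt_csSup hne hq
  have hz2 : 0 < ∑ v, z v ^ 2 := by
    rcases (Finset.sum_nonneg fun v (_ : v ∈ univ) => sq_nonneg (z v)).lt_or_eq with h | h
    · exact h
    · exfalso
      apply hz0
      funext v
      have := (Finset.sum_eq_zero_iff_of_nonneg (fun v _ => sq_nonneg (z v))).mp h.symm v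
        (Finset.mem_univ v)
      exact (pow_eq_zero_iff two_ne_zero).mp this
  have hqf : qf G z = μ * ∑ v, z v ^ 2 := by
    rw [← quad, hz, Finset.mul_sum]
    refine Finset.sum_congr rfl fun v _ => ?_
    rw [Pi.smul_apply, smul_eq_mul]; ring
  have hmain := h0 (Fin n) G hnn ⟨z, by
    rw [hqf, Fintype.card_fin]
    have : 2 * (1 - 1 / (k:ℝ)) * (n:ℝ) < μ := by
      calc _ = (1 - 1 / (k : ℝ)) * (2 * (n : ℝ)) := by ring
        _ < μ := hμ
    exact mul_lt_mul_of_pos_right this hz2⟩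
  rw [Fintype.card_fin, count_eq] at hmain
  exact hmain

end Pool.Agent.Results.MP_f3cc63_co.SignlessCliqueCount
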